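import Pool.Agent.Q276.CN.Stm

/-! Project CN (MP_401270_nt): class numbers and reduced forms (`StmtHLE`). -/

set_option autoImplicit false

open Finset

namespace Pool.Agent.Q79.CN

open Pool.Agent.Q276.CN

open Classical in
/-- `StmtHLE` follows from `StmtMEM`, `StmtEX`, `StmtCYC`, `StmtWNN`. -/
theorem hle (hM : StmtMEM) (hE : StmtEX) (hC : StmtCYC) (hW : StmtWNN) : StmtHLE := by
  intro D hD'
  -- the map from the reduced forms to the classes
  let r : {t : ℤ × ℤ × ℤ // PF D t} → {t : ℤ × ℤ × ℤ // PF D t} → Prop := fun u v => Eqv u.1 v.1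
  let g : {t // t ∈ redF D} → Quot r := fun t => Quot.mk r ⟨t.1, ((hM D t.1).1 t.2).1⟩
  have hg : Function.Surjective g := by
    intro q
    obtain ⟨⟨t, ht⟩, rfl⟩ := Quot.exists_rep q
    obtain ⟨t', h1, h2, h3⟩ := hE D hD' t ht
    refine ⟨⟨t', (hM D t').2 ⟨h2, h3⟩⟩, ?_⟩
    exact (Quot.sound (r := r) (a := ⟨t, ht⟩) (b := ⟨t', h2⟩) h1).symm
  have : Finite (Quot r) := Finite.of_surjective g hg
  have hcard : hD D = Nat.card (Quot r) := rfl
  refine ⟨?_, ?_⟩
  · rw [hcard]
    calc Nat.card (Quot r) ≤ Nat.card {t // t ∈ redF D} := Nat.card_le_card_of_surjective g hg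
      _ = (redF D).card := by simp
  · intro B hB hun
    have : Fintype (Quot r) := Fintype.ofFinite _
    choose s hs using hg
    have hbound : ∀ q : Quot r, B ≤ ∑ t' ∈ (redF D).filter (fun t' => Eqv (s q).1 t'), wt D t' := by
      intro q
      obtain ⟨h1, h2⟩ := (hM D (s q).1).1 (s q).2
      obtain ⟨T, U, hT, hU, hTU, hle⟩ := hC D hD' (s q).1 h1 h2
      exact le_trans (hun T U hT hU hTU) hle
    have hdisj : ((Finset.univ : Finset (Quot r)) : Set (Quot r)).PairwiseDisjoint
        (fun q => (redF D).filter (fun t' => Eqv (s q).1 t')) := by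
      intro q _ q' _ hne
      rw [Function.onFun, Finset.disjoint_left]
      intro t ht ht'
      apply hne
      rw [Finset.mem_filter] at ht ht'
      have hp : PF D t := ((hM D t).1 ht.1).1
      have e1 : g (s q) = Quot.mk r ⟨t, hp⟩ := Quot.sound ht.2
      have e2 : g (s q') = Quot.mk r ⟨t, hp⟩ := Quot.sound ht'.2
      rw [hs q] at e1
      rw [hs q'] at e2
      rw [e1, e2]
    have hsum : ∑ q : Quot r, ∑ t' ∈ (redF D).filter (fun t' => Eqv (s q).1 t'), wt D t'
        = ∑ t' ∈ (Finset.univ : Finset (Quot r)).biUnion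
            (fun q => (redF D).filter (fun t' => Eqv (s q).1 t')), wt D t' :=
      (Finset.sum_biUnion hdisj).symm
    have hsub : (Finset.univ : Finset (Quot r)).biUnion
        (fun q => (redF D).filter (fun t' => Eqv (s q).1 t')) ⊆ redF D := by
      intro t ht
      obtain ⟨q, _, hq⟩ := Finset.mem_biUnion.1 ht
      exact (Finset.mem_filter.1 hq).1
    calc B * (hD D : ℝ) = ∑ _q : Quot r, B := by
          rw [hcard, Nat.card_eq_fintype_card]
          simp [mul_comm]
      _ ≤ ∑ q : Quot r, ∑ t' ∈ (redF D).filter (fun t' => Eqv (s q).1 t'), wt D t' :=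
          Finset.sum_le_sum fun q _ => hbound q
      _ = ∑ t' ∈ (Finset.univ : Finset (Quot r)).biUnion
            (fun q => (redF D).filter (fun t' => Eqv (s q).1 t')), wt D t' := hsum
      _ ≤ ∑ t ∈ redF D, wt D t := by
          apply Finset.sum_le_sum_of_subset_of_nonneg hsub
          intro t ht _
          obtain ⟨h1, h2⟩ := (hM D t).1 ht
          exact hW D t h1 h2

end Pool.Agent.Q79.CN
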